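import Pool.Agent.MP_c9886c_pr.Defs

section

set_option autoImplicit false

open MeasureTheory Set
open scoped ENNReal

namespace Pool.Agent.MP_c9886c_pr

/-- The transition operator on real functions. -/
def tr (ω : ℤ → ℝ) (f : ℤ → ℝ) : ℤ → ℝ := fun x => ω x * f (x + 1) + (1 - ω x) * f (x - 1)

/-- The transition operator on extended nonnegative functions. -/
noncomputable def etr (ω : ℤ → ℝ) (f : ℤ → ℝ≥0∞) : ℤ → ℝ≥0∞ := fun x =>
  ENNReal.ofReal (ω x) * f (x + 1) + ENNReal.ofReal (1 - ω x) * f (x - 1)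

lemma lintegral_step (ω : ℤ → ℝ) (f : ℤ → ℝ≥0∞) (x : ℤ) :
    ∫⁻ y, f y ∂(step ω x) = etr ω f x := by
  simp [step, etr, lintegral_add_measure, lintegral_smul_measure]

lemma lintegral_quenched (ω : ℤ → ℝ) (n : ℕ) : ∀ f : ℤ → ℝ≥0∞,
    ∫⁻ y, f y ∂(quenched ω n) = (etr ω)^[n] f 0 := by
  induction n with
  | zero => intro f; simp [quenched]
  | succ n ih =>
    intro f
    rw [quenched, Measure.lintegral_bind (measurable_of_countable _).aemeasurable
      (measurable_of_countable _).aemeasurable, Function.iterate_succ_apply, ← ih]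
    simp only [lintegral_step]

lemma measurable_etr_iterate (f : ℤ → ℝ≥0∞) (n : ℕ) :
    ∀ x, Measurable fun ω : ℤ → ℝ => (etr ω)^[n] f x := by
  induction n with
  | zero => intro x; simp
  | succ n ih =>
    intro x
    simp only [Function.iterate_succ_apply', etr]
    have h1 := ih (x + 1)
    have h2 := ih (x - 1)
    fun_prop

lemma measurable_quenched (n : ℕ) : Measurable fun ω : ℤ → ℝ => quenched ω n := by
  refine Measure.measurable_of_measurable_coe _ fun s hs => ?_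
  simp only [← lintegral_indicator_one hs, lintegral_quenched]
  exact measurable_etr_iterate _ n 0

lemma lintegral_annealed (α : Measure ℝ) (n : ℕ) (f : ℤ → ℝ≥0∞) :
    ∫⁻ y, f y ∂(annealed α n) =
      ∫⁻ ω, (etr ω)^[n] f 0 ∂(Measure.infinitePi fun _ : ℤ => α) := by
  rw [annealed, Measure.lintegral_bind (measurable_quenched n).aemeasurable
    (measurable_of_countable _).aemeasurable]
  simp only [lintegral_quenched]

lemma tr_iterate_succ (ω : ℤ → ℝ) (f : ℤ → ℝ) (n : ℕ) (x : ℤ) :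
    (tr ω)^[n + 1] f x = ω x * (tr ω)^[n] f (x + 1) + (1 - ω x) * (tr ω)^[n] f (x - 1) := by
  rw [Function.iterate_succ_apply']; rfl

lemma tr_iterate_nonneg {ω : ℤ → ℝ} (hω : ∀ x, ω x ∈ Icc (0 : ℝ) 1) {f : ℤ → ℝ}
    (hf : ∀ x, 0 ≤ f x) (n : ℕ) : ∀ x, 0 ≤ (tr ω)^[n] f x := by
  induction n with
  | zero => exact hf
  | succ n ih =>
    intro x
    rw [tr_iterate_succ]
    exact add_nonneg (mul_nonneg (hω x).1 (ih _)) (mul_nonneg (sub_nonneg.2 (hω x).2) (ih _))

lemma etr_iterate_ofReal {ω : ℤ → ℝ} (hω : ∀ x, ω x ∈ Icc (0 : ℝ) 1) {f : ℤ → ℝ}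
    (hf : ∀ x, 0 ≤ f x) (n : ℕ) :
    ∀ x, (etr ω)^[n] (fun y => ENNReal.ofReal (f y)) x = ENNReal.ofReal ((tr ω)^[n] f x) := by
  induction n with
  | zero => intro x; rfl
  | succ n ih =>
    intro x
    have h1 := (hω x).1
    have h2 := sub_nonneg.2 (hω x).2
    rw [tr_iterate_succ, Function.iterate_succ_apply', etr, ih, ih, ← ENNReal.ofReal_mul h1,
      ← ENNReal.ofReal_mul h2, ← ENNReal.ofReal_add
      (mul_nonneg h1 (tr_iterate_nonneg hω hf n _)) (mul_nonneg h2 (tr_iterate_nonneg hω hf n _))]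

lemma tr_iterate_sum {ι : Type*} (ω : ℤ → ℝ) (s : Finset ι) (c : ι → ℝ) (f : ι → ℤ → ℝ) (n : ℕ) :
    ∀ x, (tr ω)^[n] (fun y => ∑ i ∈ s, c i * f i y) x = ∑ i ∈ s, c i * (tr ω)^[n] (f i) x := by
  induction n with
  | zero => intro x; rfl
  | succ n ih =>
    intro x
    simp only [tr_iterate_succ, ih, Finset.mul_sum, ← Finset.sum_add_distrib]
    exact Finset.sum_congr rfl fun i _ => by ring

lemma tr_iterate_sub (ω : ℤ → ℝ) (f g : ℤ → ℝ) (n : ℕ) :
    ∀ x, (tr ω)^[n] (fun y => f y - g y) x = (tr ω)^[n] f x - (tr ω)^[n] g x := by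
  induction n with
  | zero => intro x; rfl
  | succ n ih =>
    intro x
    simp only [tr_iterate_succ, ih]
    ring

/-- Locality, allowing an additive constant. -/
lemma tr_iterate_local (ω : ℤ → ℝ) (f g : ℤ → ℝ) (c : ℝ) (a b : ℤ)
    (h : ∀ y, a ≤ y → y ≤ b → f y = g y + c) (n : ℕ) :
    ∀ x, a + n ≤ x → x + n ≤ b → (tr ω)^[n] f x = (tr ω)^[n] g x + c := by
  induction n with
  | zero => intro x h1 h2; exact h x (by simpa using h1) (by simpa using h2)
  | succ n ih =>
    intro x h1 h2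
    push_cast at h1 h2
    rw [tr_iterate_succ, tr_iterate_succ, ih _ (by omega) (by omega), ih _ (by omega) (by omega)]
    ring

lemma tr_iterate_harmonic (ω : ℤ → ℝ) (f : ℤ → ℝ) (a b : ℤ)
    (h : ∀ y, a < y → y < b → tr ω f y = f y + 1) (n : ℕ) :
    ∀ x, a + n ≤ x → x + n ≤ b → (tr ω)^[n] f x = f x + n := by
  induction n with
  | zero => intro x _ _; simp
  | succ n ih =>
    intro x h1 h2
    push_cast at h1 h2
    have := h x (by omega) (by omega)
    rw [tr_iterate_succ, ih _ (by omega) (by omega), ih _ (by omega) (by omega)]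
    simp only [tr] at this
    push_cast
    linear_combination this

lemma tr_iterate_two_mono {ω : ℤ → ℝ} (hω : ∀ x, ω x ∈ Icc (0 : ℝ) 1) {f : ℤ → ℝ}
    (hf : Monotone f) (n : ℕ) : ∀ x, (tr ω)^[n] f (x - 1) ≤ (tr ω)^[n] f (x + 1) := by
  induction n with
  | zero => intro x; exact hf (by omega)
  | succ n ih =>
    intro x
    rw [tr_iterate_succ, tr_iterate_succ]
    have h1 := ih (x - 1)
    have h2 := ih (x + 1)
    rw [sub_add_cancel] at h1 ⊢
    rw [add_sub_cancel_right] at h2 ⊢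
    nlinarith [(hω (x - 1)).1, (hω (x - 1)).2, (hω (x + 1)).1, (hω (x + 1)).2]

lemma tr_iterate_mono {ω ω' : ℤ → ℝ} (hω : ∀ x, ω x ∈ Icc (0 : ℝ) 1)
    (hω' : ∀ x, ω' x ∈ Icc (0 : ℝ) 1) (hle : ∀ x, ω x ≤ ω' x) {f : ℤ → ℝ}
    (hf : Monotone f) (n : ℕ) : ∀ x, (tr ω)^[n] f x ≤ (tr ω')^[n] f x := by
  induction n with
  | zero => intro x; exact le_rfl
  | succ n ih =>
    intro x
    rw [tr_iterate_succ, tr_iterate_succ]
    have h1 := mul_le_mul_of_nonneg_left (ih (x + 1)) (hω x).1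
    have h2 := mul_le_mul_of_nonneg_left (ih (x - 1)) (sub_nonneg.2 (hω x).2)
    have h3 := mul_le_mul_of_nonneg_left (tr_iterate_two_mono hω' hf n x) (sub_nonneg.2 (hle x))
    nlinarith

/-- The step function `1[y > a]`. -/
def hv (a : ℤ) : ℤ → ℝ := fun y => if a < y then 1 else 0

lemma monotone_hv (a : ℤ) : Monotone (hv a) := by
  intro x y hxy
  simp only [hv]
  split_ifs <;> first | omega | norm_num

lemma tr_iterate_hv_zero (ω : ℤ → ℝ) (a : ℤ) (n : ℕ) :
    ∀ x, x + n ≤ a → (tr ω)^[n] (hv a) x = 0 := by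
  induction n with
  | zero => intro x hx; simp only [Function.iterate_zero, id, hv]; rw [if_neg (by omega)]
  | succ n ih =>
    intro x hx
    push_cast at hx
    rw [tr_iterate_succ, ih _ (by omega), ih _ (by omega)]
    ring

lemma tr_iterate_hv_edge (ω : ℤ → ℝ) (a : ℤ) (n : ℕ) :
    ∀ x, x + n = a + 1 → (tr ω)^[n] (hv a) x = ∏ l ∈ Finset.range n, ω (x + l) := by
  induction n with
  | zero => intro x hx; simp only [Function.iterate_zero, id, hv]; rw [if_pos (by omega)]; simp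
  | succ n ih =>
    intro x hx
    push_cast at hx
    rw [tr_iterate_succ, ih _ (by omega), tr_iterate_hv_zero _ _ _ _ (by omega),
      Finset.prod_range_succ']
    simp only [Nat.cast_zero, add_zero, mul_zero, Nat.cast_add, Nat.cast_one]
    rw [mul_comm]
    congr 1
    exact Finset.prod_congr rfl fun l _ => by congr 1; ring

/-- Truncated expected crossing times. -/
noncomputable def tau (u : ℝ) (b : ℤ) (ω : ℤ → ℝ) : ℕ → ℝ
  | 0 => u
  | k + 1 => 1 + rho (ω (b + k)) * (1 + tau u b ω k)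

lemma sum_hv_diff (c : ℕ → ℝ) (b : ℤ) (N j : ℕ) (hj : j < N) :
    ∑ k ∈ Finset.range N, c k * hv (b + k) (b + j + 1) =
      ∑ k ∈ Finset.range N, c k * hv (b + k) (b + j) + c j := by
  have : c j = ∑ k ∈ Finset.range N, if k = j then c k else 0 := by
    rw [Finset.sum_ite_eq' (Finset.range N) j, if_pos (Finset.mem_range.2 hj)]
  rw [this, ← Finset.sum_add_distrib]
  refine Finset.sum_congr rfl fun k _ => ?_
  simp only [hv]
  split_ifs <;> first | omega | ring

lemma sum_hv_eq (b : ℤ) (N : ℕ) : ∀ j : ℕ, j ≤ N →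
    ∑ k ∈ Finset.range N, (1 : ℝ) * hv (b + k) (b + j) = j := by
  intro j
  induction j with
  | zero =>
    intro _
    refine (Finset.sum_eq_zero fun k _ => ?_).trans (by simp)
    simp only [hv]
    rw [if_neg (by omega)]
    simp
  | succ j ih =>
    intro hj
    have := sum_hv_diff (fun _ => 1) b N j (by omega)
    push_cast
    rw [← add_assoc, this, ih (by omega)]

/-- The martingale identity. -/
lemma sum_tau_mul (u : ℝ) {ω : ℤ → ℝ} (hω : ∀ x, ω x ≠ 0) (n : ℕ) :
    ∑ k ∈ Finset.range (2 * n + 1), tau u (-n) ω k *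
      ((tr ω)^[n] (hv (-n - 1 + k)) 0 - hv (-n - 1 + k) 0) = n := by
  have h := tr_iterate_harmonic ω
    (fun y => ∑ k ∈ Finset.range (2 * n + 1), tau u (-n) ω k * hv (-n - 1 + k) y) (-n - 1) n
    (fun y h1 h2 => ?_) n 0 (by omega) (by omega)
  · rw [tr_iterate_sum] at h
    simp only [mul_sub, Finset.sum_sub_distrib]
    linarith
  · obtain ⟨j, rfl⟩ : ∃ j : ℕ, y = -n + j := ⟨(y + n).toNat, by omega⟩
    have e1 := sum_hv_diff (tau u (-n) ω) (-n - 1) (2 * n + 1) (j + 1) (by omega)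
    have e2 := sum_hv_diff (tau u (-n) ω) (-n - 1) (2 * n + 1) j (by omega)
    have a1 : -(n : ℤ) - 1 + ((j + 1 : ℕ) : ℤ) = -n + j := by push_cast; ring
    have a2 : -(n : ℤ) - 1 + (j : ℤ) + 1 = -n + j := by ring
    have a3 : -(n : ℤ) - 1 + (j : ℤ) = -n + j - 1 := by ring
    rw [a1] at e1
    rw [a2, a3] at e2
    simp only [tr]
    rw [e1, tau, rho]
    have hw := hω (-n + j)
    have e3 : ∑ k ∈ Finset.range (2 * n + 1), tau u (-n) ω k * hv (-n - 1 + k) (-n + j - 1) =
      ∑ k ∈ Finset.range (2 * n + 1), tau u (-n) ω k * hv (-n - 1 + k) (-n + j)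
        - tau u (-n) ω j := by linarith
    rw [e3]
    field_simp
    ring

lemma sum_hv_sub (ω : ℤ → ℝ) (n : ℕ) :
    ∑ k ∈ Finset.range (2 * n + 1), ((tr ω)^[n] (hv (-n - 1 + k)) 0 - hv (-n - 1 + k) 0) =
      (tr ω)^[n] (fun y => (y : ℝ)) 0 := by
  have key : ∀ y : ℤ, -n ≤ y → y ≤ n →
      ∑ k ∈ Finset.range (2 * n + 1), (1 : ℝ) * hv (-n - 1 + k) y = (y : ℝ) + (n + 1) := by
    intro y h1 h2
    obtain ⟨j, rfl⟩ : ∃ j : ℕ, y = -n - 1 + j := ⟨(y + n + 1).toNat, by omega⟩
    rw [sum_hv_eq _ _ j (by omega)]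
    push_cast
    ring
  have h := tr_iterate_local ω _ _ _ (-n) n key n 0 (by omega) (by omega)
  have h0 := key 0 (by omega) (by omega)
  rw [tr_iterate_sum] at h
  simp only [one_mul] at h h0
  rw [Finset.sum_sub_distrib, h, h0]
  simp

end Pool.Agent.MP_c9886c_pr

end

section

set_option autoImplicit false

open MeasureTheory Set Filter Function
open scoped ENNReal

namespace Pool.Agent.MP_c9886c_pr

/-- Bounded measurable real functions. -/
structure BM {X : Type*} [MeasurableSpace X] (F : X → ℝ) : Prop where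
  meas : Measurable F
  bdd : ∃ C, ∀ x, |F x| ≤ C

section BM

variable {X : Type*} [MeasurableSpace X]

lemma BM.const (c : ℝ) : BM (fun _ : X => c) := ⟨measurable_const, |c|, fun _ => le_rfl⟩

lemma BM.add {F G : X → ℝ} (hF : BM F) (hG : BM G) : BM (fun x => F x + G x) := by
  obtain ⟨C, hC⟩ := hF.bdd
  obtain ⟨D, hD⟩ := hG.bdd
  exact ⟨hF.meas.add hG.meas, C + D, fun x => (abs_add_le _ _).trans (add_le_add (hC x) (hD x))⟩

lemma BM.mul {F G : X → ℝ} (hF : BM F) (hG : BM G) : BM (fun x => F x * G x) := by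
  obtain ⟨C, hC⟩ := hF.bdd
  obtain ⟨D, hD⟩ := hG.bdd
  refine ⟨hF.meas.mul hG.meas, C * D, fun x => ?_⟩
  rw [abs_mul]
  exact mul_le_mul (hC x) (hD x) (abs_nonneg _) ((abs_nonneg _).trans (hC x))

lemma BM.sub {F G : X → ℝ} (hF : BM F) (hG : BM G) : BM (fun x => F x - G x) := by
  have := hF.add ((BM.const (-1)).mul hG)
  simpa only [neg_mul, one_mul, ← sub_eq_add_neg] using this

lemma BM.comp {Y : Type*} [MeasurableSpace Y] {F : X → ℝ} (hF : BM F) {g : Y → X}
    (hg : Measurable g) : BM (fun y => F (g y)) := by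
  obtain ⟨C, hC⟩ := hF.bdd
  exact ⟨hF.meas.comp hg, C, fun y => hC _⟩

lemma BM.prod {ι : Type*} (s : Finset ι) {F : ι → X → ℝ} (hF : ∀ i, BM (F i)) :
    BM (fun x => ∏ i ∈ s, F i x) := by
  classical
  induction s using Finset.induction_on with
  | empty => simpa using BM.const 1
  | insert j S hj ih =>
    simp only [Finset.prod_insert hj]
    exact (hF j).mul ih

lemma BM.integrable {F : X → ℝ} (hF : BM F) (μ : Measure X) [IsFiniteMeasure μ] :
    Integrable F μ := by
  obtain ⟨C, hC⟩ := hF.bdd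
  exact Integrable.of_bound hF.meas.aestronglyMeasurable C (Eventually.of_forall hC)

end BM

lemma integral_four {X : Type*} [MeasurableSpace X] (α : Measure X) {f g h k : X → ℝ}
    (hf : Integrable f α) (hg : Integrable g α) (hh : Integrable h α) (hk : Integrable k α) :
    ∫ a, (f a - g a - h a + k a) ∂α = ∫ a, f a ∂α - ∫ a, g a ∂α - ∫ a, h a ∂α + ∫ a, k a ∂α := by
  have a1 : Integrable (fun a => f a - g a) α := hf.sub hg
  have a2 : Integrable (fun a => f a - g a - h a) α := a1.sub hh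
  rw [integral_add a2 hk, integral_sub a1 hh, integral_sub hf hg]

lemma chebyshev (α : Measure ℝ) [IsProbabilityMeasure α] {r g : ℝ → ℝ} (hr : BM r) (hg : BM g)
    (hr' : Antitone r) (hg' : Monotone g) :
    ∫ a, r a * g a ∂α ≤ (∫ a, r a ∂α) * ∫ a, g a ∂α := by
  have i1 := hr.integrable α
  have i2 := hg.integrable α
  have i3 := (hr.mul hg).integrable α
  have h1 : ∀ b, ∫ a, r a * g a ∂α - r b * ∫ a, g a ∂α - (∫ a, r a ∂α) * g b + r b * g b ≤ 0 := by
    intro b
    have : ∫ a, (r a * g a - r b * g a - r a * g b + r b * g b) ∂α ≤ 0 := by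
      refine integral_nonpos fun a => ?_
      simp only [Pi.zero_apply]
      rcases le_total a b with h | h
      · nlinarith [hr' h, hg' h]
      · nlinarith [hr' h, hg' h]
    rwa [integral_four α i3 (i2.const_mul _) (i1.mul_const _) (integrable_const _),
      integral_const_mul, integral_mul_const, integral_const, probReal_univ, one_smul] at this
  have h2 := integral_nonpos (μ := α) h1
  rw [integral_four α (integrable_const _) (i1.mul_const _) (i2.const_mul _) i3,
    integral_const_mul, integral_mul_const, integral_const, probReal_univ, one_smul] at h2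
  linarith

/-- The law of the environment. -/
noncomputable abbrev env (α : Measure ℝ) : Measure (ℤ → ℝ) := Measure.infinitePi fun _ : ℤ => α

lemma measurePreserving_update (α : Measure ℝ) [IsProbabilityMeasure α] (i : ℤ) :
    MeasurePreserving (fun p : (ℤ → ℝ) × ℝ => update p.1 i p.2) ((env α).prod α) (env α) := by
  refine ⟨measurable_update', Measure.eq_infinitePi _ fun s t ht => ?_⟩
  rw [Measure.map_apply measurable_update' (MeasurableSet.pi s.countable_toSet fun j _ => ht j)]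
  by_cases hi : i ∈ s
  · have : (fun p : (ℤ → ℝ) × ℝ => update p.1 i p.2) ⁻¹' Set.pi s t =
        Set.pi (s.erase i) t ×ˢ t i := by
      ext ⟨ω, a⟩
      simp only [mem_preimage, Set.mem_pi, Finset.mem_coe, mem_prod, Finset.mem_erase]
      constructor
      · intro h
        refine ⟨fun j hj => ?_, ?_⟩
        · simpa [hj.1] using h j hj.2
        · simpa using h i hi
      · rintro ⟨h1, h2⟩ j hj
        by_cases hji : j = i
        · subst hji; simpa using h2
        · simpa [hji] using h1 j ⟨hji, hj⟩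
    rw [this, Measure.prod_prod, Measure.infinitePi_pi _ fun j _ => ht j,
      Finset.prod_erase_mul _ _ hi]
  · have : (fun p : (ℤ → ℝ) × ℝ => update p.1 i p.2) ⁻¹' Set.pi s t = Set.pi s t ×ˢ univ := by
      ext ⟨ω, a⟩
      simp only [mem_preimage, Set.mem_pi, Finset.mem_coe, mem_prod, mem_univ, and_true]
      refine forall₂_congr fun j hj => ?_
      have hji : j ≠ i := fun h => hi (h ▸ hj)
      simp [hji]
    rw [this, Measure.prod_prod, Measure.infinitePi_pi _ fun j _ => ht j, measure_univ, mul_one]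

lemma integral_env_update (α : Measure ℝ) [IsProbabilityMeasure α] (i : ℤ) {G : (ℤ → ℝ) → ℝ}
    (hG : BM G) : ∫ ω, G ω ∂(env α) = ∫ ω, ∫ a, G (update ω i a) ∂α ∂(env α) := by
  have hmp := measurePreserving_update α i
  rw [← integral_prod (fun p : (ℤ → ℝ) × ℝ => G (update p.1 i p.2))
    ((hG.comp measurable_update').integrable _)]
  conv_lhs => rw [← hmp.map_eq]
  exact integral_map measurable_update'.aemeasurable hG.meas.aestronglyMeasurable

lemma integrable_inner_update (α : Measure ℝ) [IsProbabilityMeasure α] (i : ℤ)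
    {G : (ℤ → ℝ) → ℝ} (hG : BM G) :
    Integrable (fun ω => ∫ a, G (update ω i a) ∂α) (env α) :=
  ((hG.comp (g := fun p : (ℤ → ℝ) × ℝ => update p.1 i p.2) measurable_update').integrable
    ((env α).prod α)).integral_prod_left

lemma chebyshev_env (α : Measure ℝ) [IsProbabilityMeasure α] (i : ℤ) {r : ℝ → ℝ} (hr : BM r)
    (hr' : Antitone r) {G : (ℤ → ℝ) → ℝ} (hG : BM G)
    (hG' : ∀ ω, Monotone fun a => G (update ω i a)) :
    ∫ ω, r (ω i) * G ω ∂(env α) ≤ (∫ a, r a ∂α) * ∫ ω, G ω ∂(env α) := by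
  have h1 : BM fun ω : ℤ → ℝ => r (ω i) * G ω := (hr.comp (measurable_pi_apply i)).mul hG
  rw [integral_env_update α i h1, integral_env_update α i hG, ← integral_const_mul]
  refine integral_mono (integrable_inner_update α i h1)
    ((integrable_inner_update α i hG).const_mul _) fun ω => ?_
  simp only [update_self]
  exact chebyshev α hr (hG.comp (measurable_update ω)) hr' (hG' ω)

lemma indep_env (α : Measure ℝ) [IsProbabilityMeasure α] (i : ℤ) {r : ℝ → ℝ} (hr : BM r)
    {H : (ℤ → ℝ) → ℝ} (hH : BM H) (hH' : ∀ ω a, H (update ω i a) = H ω) :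
    ∫ ω, r (ω i) * H ω ∂(env α) = (∫ a, r a ∂α) * ∫ ω, H ω ∂(env α) := by
  have h1 : BM fun ω : ℤ → ℝ => r (ω i) * H ω := (hr.comp (measurable_pi_apply i)).mul hH
  rw [integral_env_update α i h1, ← integral_const_mul]
  simp only [update_self, hH', integral_mul_const]

end Pool.Agent.MP_c9886c_pr

end

section

set_option autoImplicit false

open MeasureTheory Set Filter Function
open scoped ENNReal

namespace Pool.Agent.MP_c9886c_pr

/-- Clamp to `[c, 1 - c]`. -/
noncomputable def cl (c w : ℝ) : ℝ := max c (min w (1 - c))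

/-- Clamped environment. -/
noncomputable def clE (c : ℝ) (ω : ℤ → ℝ) : ℤ → ℝ := fun x => cl c (ω x)

lemma cl_mem {c : ℝ} (hc : c ≤ 1 - c) (w : ℝ) : cl c w ∈ Icc c (1 - c) :=
  ⟨le_max_left _ _, max_le hc (min_le_right _ _)⟩

lemma cl_eq {c w : ℝ} (hw : w ∈ Icc c (1 - c)) : cl c w = w := by
  rw [cl, min_eq_left hw.2, max_eq_right hw.1]

lemma monotone_cl (c : ℝ) : Monotone (cl c) := fun _ _ h =>
  max_le_max le_rfl (min_le_min h le_rfl)

lemma measurable_cl (c : ℝ) : Measurable (cl c) := by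
  have : Continuous (cl c) := by unfold cl; fun_prop
  exact this.measurable

section clamp

variable {c : ℝ} (h0 : 0 < c) (hc : c ≤ 1 - c)
include h0 hc

lemma cl_pos (w : ℝ) : 0 < cl c w := h0.trans_le (cl_mem hc w).1

lemma cl_le_one (w : ℝ) : cl c w ≤ 1 := (cl_mem hc w).2.trans (by linarith)

lemma clE_mem (ω : ℤ → ℝ) (x : ℤ) : clE c ω x ∈ Icc (0 : ℝ) 1 :=
  ⟨(cl_pos h0 hc _).le, cl_le_one h0 hc _⟩

lemma bm_cl : BM (cl c) :=
  ⟨measurable_cl c, 1, fun w => by
    rw [abs_of_pos (cl_pos h0 hc w)]; exact cl_le_one h0 hc w⟩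

lemma rho_cl_nonneg (w : ℝ) : 0 ≤ rho (cl c w) :=
  div_nonneg (sub_nonneg.2 (cl_le_one h0 hc w)) (cl_pos h0 hc w).le

lemma rho_cl_pos (w : ℝ) : 0 < rho (cl c w) :=
  div_pos (by linarith [(cl_mem hc w).2]) (cl_pos h0 hc w)

lemma rho_cl_le (w : ℝ) : rho (cl c w) ≤ 1 / c :=
  div_le_div₀ zero_le_one (by linarith [cl_pos h0 hc w]) h0 (cl_mem hc w).1

lemma bm_rho_cl : BM fun w => rho (cl c w) := by
  refine ⟨?_, 1 / c, fun w => ?_⟩
  · have := measurable_cl c
    unfold rho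
    fun_prop
  · rw [abs_of_nonneg (rho_cl_nonneg h0 hc w)]
    exact rho_cl_le h0 hc w

lemma antitone_rho_cl : Antitone fun w => rho (cl c w) := by
  intro a b hab
  have h := monotone_cl c hab
  exact div_le_div₀ (sub_nonneg.2 (cl_le_one h0 hc a)) (by linarith) (cl_pos h0 hc a) h

lemma bm_clE (x : ℤ) : BM fun ω : ℤ → ℝ => clE c ω x :=
  (bm_cl h0 hc).comp (measurable_pi_apply x)

lemma bm_tr (f : ℤ → ℝ) (n : ℕ) : ∀ x, BM fun ω : ℤ → ℝ => (tr (clE c ω))^[n] f x := by
  induction n with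
  | zero => intro x; exact BM.const _
  | succ n ih =>
    intro x
    simp only [tr_iterate_succ]
    exact ((bm_clE h0 hc x).mul (ih _)).add (((BM.const 1).sub (bm_clE h0 hc x)).mul (ih _))

lemma bm_tau (u : ℝ) (b : ℤ) (k : ℕ) : BM fun ω : ℤ → ℝ => tau u b (clE c ω) k := by
  induction k with
  | zero => exact BM.const _
  | succ k ih =>
    simp only [tau]
    exact (BM.const 1).add (((bm_rho_cl h0 hc).comp (measurable_pi_apply (b + k))).mul
      ((BM.const 1).add ih))

lemma monotone_tr_update {f : ℤ → ℝ} (hf : Monotone f) (n : ℕ) (x i : ℤ) (ω : ℤ → ℝ) :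
    Monotone fun a => (tr (clE c (update ω i a)))^[n] f x := by
  intro a b hab
  refine tr_iterate_mono (clE_mem h0 hc _) (clE_mem h0 hc _) (fun y => monotone_cl c ?_) hf n x
  exact update_mono hab y

variable (α : Measure ℝ) [IsProbabilityMeasure α]

lemma tau_step {u : ℝ} {b : ℤ} {k : ℕ} {G : (ℤ → ℝ) → ℝ} (hG : BM G)
    (h : ∫ ω, tau u b (clE c ω) k * (rho (cl c (ω (b + k))) * G ω) ∂(env α) ≤
      u * ∫ ω, rho (cl c (ω (b + k))) * G ω ∂(env α)) :
    ∫ ω, tau u b (clE c ω) (k + 1) * G ω ∂(env α) ≤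
      ∫ ω, G ω ∂(env α) + (1 + u) * ∫ ω, rho (cl c (ω (b + k))) * G ω ∂(env α) := by
  have b1 : BM fun ω : ℤ → ℝ => rho (cl c (ω (b + k))) * G ω :=
    ((bm_rho_cl h0 hc).comp (measurable_pi_apply (b + k))).mul hG
  have b2 := (bm_tau h0 hc u b k).mul b1
  have e : (fun ω => tau u b (clE c ω) (k + 1) * G ω) = fun ω =>
      (G ω + rho (cl c (ω (b + k))) * G ω) +
        tau u b (clE c ω) k * (rho (cl c (ω (b + k))) * G ω) := by
    funext ω
    simp only [tau, clE]
    ring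
  rw [e, integral_add ((hG.add b1).integrable _) (b2.integrable _),
    integral_add (hG.integrable _) (b1.integrable _)]
  linarith

lemma mono_rho_mul {b : ℤ} {k : ℕ} {G : (ℤ → ℝ) → ℝ}
    (hG' : ∀ j : ℕ, j < k + 1 → ∀ ω, Monotone fun a => G (update ω (b + j) a)) :
    ∀ j : ℕ, j < k → ∀ ω : ℤ → ℝ, Monotone fun a =>
      rho (cl c (update ω (b + j) a (b + k))) * G (update ω (b + j) a) := by
  intro j hj ω
  have hne : b + (k : ℤ) ≠ b + j := by omega
  simp only [update_of_ne hne]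
  exact (hG' j (by omega) ω).const_mul (rho_cl_nonneg h0 hc _)

lemma tau_le {u : ℝ} (hu : 0 ≤ 1 + u) (huR : u = 1 + (1 + u) * ∫ a, rho (cl c a) ∂α) (b : ℤ)
    (k : ℕ) : ∀ G : (ℤ → ℝ) → ℝ, BM G →
      (∀ j : ℕ, j < k → ∀ ω, Monotone fun a => G (update ω (b + j) a)) →
      ∫ ω, tau u b (clE c ω) k * G ω ∂(env α) ≤ u * ∫ ω, G ω ∂(env α) := by
  induction k with
  | zero => intro G _ _; simp only [tau]; rw [integral_const_mul]
  | succ k ih =>
    intro G hG hG'
    have b1 : BM fun ω : ℤ → ℝ => rho (cl c (ω (b + k))) * G ω :=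
      ((bm_rho_cl h0 hc).comp (measurable_pi_apply (b + k))).mul hG
    have h1 := tau_step h0 hc α hG (ih _ b1 (mono_rho_mul h0 hc hG'))
    have h2 := chebyshev_env α (b + k) (bm_rho_cl h0 hc) (antitone_rho_cl h0 hc) hG
      (hG' k (by omega))
    have h3 := mul_le_mul_of_nonneg_left h2 hu
    calc _ ≤ _ := h1
      _ ≤ ∫ ω, G ω ∂(env α) + (1 + u) * ((∫ a, rho (cl c a) ∂α) * ∫ ω, G ω ∂(env α)) := by
          linarith
      _ = (1 + (1 + u) * ∫ a, rho (cl c a) ∂α) * ∫ ω, G ω ∂(env α) := by ring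
      _ = _ := by rw [← huR]

lemma strict_cheb (hae : ∀ᵐ w ∂α, w ∈ Icc c (1 - c)) (hnd : ∀ a : ℝ, α ≠ Measure.dirac a) :
    ∫ a, rho (cl c a) * cl c a ∂α < (∫ a, rho (cl c a) ∂α) * ∫ a, cl c a ∂α := by
  by_contra hle
  push Not at hle
  set m := ∫ a, cl c a ∂α with hm
  set R := ∫ a, rho (cl c a) ∂α with hR
  have i1 := (bm_cl h0 hc).integrable α
  have i2 := (bm_rho_cl h0 hc).integrable α
  have hm0 : 0 ≤ m := integral_nonneg fun a => (cl_pos h0 hc a).le
  have e1 : ∀ a, rho (cl c a) * cl c a = 1 - cl c a := fun a =>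
    div_mul_cancel₀ _ (cl_pos h0 hc a).ne'
  simp only [e1] at hle
  rw [integral_sub (integrable_const _) i1, integral_const, probReal_univ, one_smul, ← hm] at hle
  have e2 : ∀ a, (cl c a - m) ^ 2 / cl c a =
      cl c a - 2 * m - (-m ^ 2) + m ^ 2 * rho (cl c a) := by
    intro a
    have := (cl_pos h0 hc a).ne'
    simp only [rho]
    field_simp
    ring
  have i3 : Integrable (fun a => (cl c a - m) ^ 2 / cl c a) α := by
    simp only [e2]
    exact ((i1.sub (integrable_const _)).sub (integrable_const _)).add (i2.const_mul _)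
  have hnn : ∀ a, 0 ≤ (cl c a - m) ^ 2 / cl c a := fun a =>
    div_nonneg (sq_nonneg _) (cl_pos h0 hc a).le
  have h3 : ∫ a, (cl c a - m) ^ 2 / cl c a ∂α = 0 := by
    refine le_antisymm ?_ (integral_nonneg hnn)
    simp only [e2]
    rw [integral_four α i1 (integrable_const _) (integrable_const _) (i2.const_mul _),
      integral_const, integral_const, integral_const_mul, probReal_univ, one_smul, one_smul,
      ← hm, ← hR]
    nlinarith
  rw [integral_eq_zero_iff_of_nonneg hnn i3] at h3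
  have h4 : ∀ᵐ a ∂α, id a = (fun _ => m) a := by
    filter_upwards [h3, hae] with a ha ha'
    have hp := (cl_pos h0 hc a).ne'
    simp only [Pi.zero_apply, div_eq_zero_iff, hp, or_false] at ha
    rw [cl_eq ha'] at ha
    have := pow_eq_zero_iff (two_ne_zero) |>.1 ha
    simp only [id]
    linarith
  apply hnd m
  have : α.map id = α.map (fun _ => m) := Measure.map_congr h4
  rwa [Measure.map_id, Measure.map_const, measure_univ, one_smul] at this

lemma tau_lt (hae : ∀ᵐ w ∂α, w ∈ Icc c (1 - c)) (hnd : ∀ a : ℝ, α ≠ Measure.dirac a)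
    {u : ℝ} (hu : 0 < 1 + u) (huR : u = 1 + (1 + u) * ∫ a, rho (cl c a) ∂α) (n : ℕ) :
    ∫ ω, tau u (-(n + 1 : ℕ)) (clE c ω) (2 * (n + 1)) * (tr (clE c ω))^[n + 1] (hv n) 0 ∂(env α) <
      u * ∫ ω, (tr (clE c ω))^[n + 1] (hv n) 0 ∂(env α) := by
  have hG := bm_tr h0 hc (hv n) (n + 1) 0
  have hk : 2 * (n + 1) = (2 * n + 1) + 1 := by ring
  have hb : -((n + 1 : ℕ) : ℤ) + ((2 * n + 1 : ℕ) : ℤ) = n := by push_cast; ring
  have b1 : BM fun ω : ℤ → ℝ => rho (cl c (ω (-((n + 1 : ℕ) : ℤ) + (2 * n + 1 : ℕ)))) *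
      (tr (clE c ω))^[n + 1] (hv n) 0 :=
    ((bm_rho_cl h0 hc).comp (measurable_pi_apply _)).mul hG
  have h1 := tau_step h0 hc α hG (tau_le h0 hc α hu.le huR _ _ _ b1 (mono_rho_mul h0 hc
    (G := fun ω => (tr (clE c ω))^[n + 1] (hv n) 0) fun j _ ω => monotone_tr_update h0 hc (monotone_hv n) (n + 1) 0 _ ω))
  rw [hk]
  refine h1.trans_lt ?_
  rw [hb]
  set H : (ℤ → ℝ) → ℝ := fun ω => ∏ l ∈ Finset.range n, clE c ω (0 + l) with hH
  have bH : BM H := BM.prod _ fun l => bm_clE h0 hc _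
  have hH' : ∀ ω a, H (update ω n a) = H ω := by
    intro ω a
    refine Finset.prod_congr rfl fun l hl => ?_
    have := Finset.mem_range.1 hl
    have hne : (0 : ℤ) + l ≠ n := by omega
    simp only [clE, update_of_ne hne]
  have e : ∀ ω, (tr (clE c ω))^[n + 1] (hv n) 0 = cl c (ω n) * H ω := by
    intro ω
    rw [tr_iterate_hv_edge _ _ _ _ (by push_cast; ring), Finset.prod_range_succ, mul_comm]
    simp only [clE, zero_add, hH]
  have hpos : 0 < ∫ ω, H ω ∂(env α) := by
    have : ∫ _ω, c ^ n ∂(env α) ≤ ∫ ω, H ω ∂(env α) := by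
      refine integral_mono (integrable_const _) (bH.integrable _) fun ω => ?_
      have := Finset.prod_le_prod (s := Finset.range n) (f := fun _ => c)
        (g := fun l : ℕ => clE c ω (0 + l)) (fun _ _ => h0.le) (fun l _ => (cl_mem hc _).1)
      simpa [hH] using this
    rw [integral_const, probReal_univ, one_smul] at this
    exact (pow_pos h0 n).trans_le this
  simp only [e, ← mul_assoc]
  rw [indep_env α n (bm_cl h0 hc) bH hH',
    indep_env α n ((bm_rho_cl h0 hc).mul (bm_cl h0 hc)) bH hH']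
  have h2 := mul_lt_mul_of_pos_left
    (mul_lt_mul_of_pos_right (strict_cheb h0 hc α hae hnd) hpos) hu
  calc _ < (∫ a, cl c a ∂α) * ∫ ω, H ω ∂(env α) +
        (1 + u) * (((∫ a, rho (cl c a) ∂α) * ∫ a, cl c a ∂α) * ∫ ω, H ω ∂(env α)) := by linarith
    _ = (1 + (1 + u) * ∫ a, rho (cl c a) ∂α) * ((∫ a, cl c a ∂α) * ∫ ω, H ω ∂(env α)) := by ring
    _ = _ := by rw [← huR]

lemma lt_mul_mean (hae : ∀ᵐ w ∂α, w ∈ Icc c (1 - c)) (hnd : ∀ a : ℝ, α ≠ Measure.dirac a)
    {u : ℝ} (hu : 0 < 1 + u) (huR : u = 1 + (1 + u) * ∫ a, rho (cl c a) ∂α) {n : ℕ}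
    (hn : 1 ≤ n) :
    (n : ℝ) < u * ∫ ω, (tr (clE c ω))^[n] (fun y => (y : ℝ)) 0 ∂(env α) := by
  set G : ℕ → (ℤ → ℝ) → ℝ := fun k ω =>
    (tr (clE c ω))^[n] (hv (-n - 1 + k)) 0 - hv (-n - 1 + k) 0 with hGdef
  have hG : ∀ k, BM (G k) := fun k => (bm_tr h0 hc _ n 0).sub (BM.const _)
  have e1 : (n : ℝ) = ∑ k ∈ Finset.range (2 * n + 1),
      ∫ ω, tau u (-n) (clE c ω) k * G k ω ∂(env α) := by
    rw [← integral_finsetSum _ fun k _ => ((bm_tau h0 hc u _ k).mul (hG k)).integrable _]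
    have : ∀ ω, ∑ k ∈ Finset.range (2 * n + 1), tau u (-n) (clE c ω) k * G k ω = n :=
      fun ω => sum_tau_mul u (ω := clE c ω) (fun x => (cl_pos h0 hc _).ne') n
    simp only [this]
    simp
  have e2 : ∫ ω, (tr (clE c ω))^[n] (fun y => (y : ℝ)) 0 ∂(env α) =
      ∑ k ∈ Finset.range (2 * n + 1), ∫ ω, G k ω ∂(env α) := by
    rw [← integral_finsetSum _ fun k _ => (hG k).integrable _]
    simp only [hGdef, sum_hv_sub]
  rw [e2, Finset.mul_sum]
  conv_lhs => rw [e1]
  refine Finset.sum_lt_sum (fun k _ => ?_) ⟨2 * n, by simp, ?_⟩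
  · refine tau_le h0 hc α hu.le huR _ k _ (hG k) fun j _ ω => ?_
    exact fun a b hab => sub_le_sub_right
      (monotone_tr_update h0 hc (monotone_hv _) n 0 _ ω hab) _
  · obtain ⟨n, rfl⟩ : ∃ m, n = m + 1 := ⟨n - 1, by omega⟩
    have hb : -((n + 1 : ℕ) : ℤ) - 1 + ((2 * (n + 1) : ℕ) : ℤ) = n := by push_cast; ring
    have hz : hv n 0 = 0 := by simp [hv]
    simp only [hGdef, hb, hz, sub_zero]
    exact tau_lt h0 hc α hae hnd hu huR n

omit h0 hc in
lemma ae_clE_eq (hae : ∀ᵐ w ∂α, w ∈ Icc c (1 - c)) : ∀ᵐ ω ∂(env α), clE c ω = ω := by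
  have : ∀ᵐ ω ∂(env α), ∀ x, ω x ∈ Icc c (1 - c) := by
    rw [ae_all_iff]
    intro x
    exact (measurePreserving_eval_infinitePi (fun _ : ℤ => α) x).quasiMeasurePreserving.ae hae
  filter_upwards [this] with ω hω
  funext x
  exact cl_eq (hω x)

lemma lintegral_annealed_ofReal (hae : ∀ᵐ w ∂α, w ∈ Icc c (1 - c)) {f : ℤ → ℝ}
    (hf : ∀ x, 0 ≤ f x) (n : ℕ) :
    ∫⁻ y, ENNReal.ofReal (f y) ∂(annealed α n) =
      ENNReal.ofReal (∫ ω, (tr (clE c ω))^[n] f 0 ∂(env α)) := by
  rw [lintegral_annealed, ofReal_integral_eq_lintegral_ofReal ((bm_tr h0 hc f n 0).integrable _)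
    (Eventually.of_forall fun ω => tr_iterate_nonneg (clE_mem h0 hc ω) hf n 0)]
  refine lintegral_congr_ae ?_
  filter_upwards [ae_clE_eq α hae] with ω hω
  rw [← etr_iterate_ofReal (clE_mem h0 hc ω) hf, hω]

lemma integral_annealed (hae : ∀ᵐ w ∂α, w ∈ Icc c (1 - c)) (f : ℤ → ℝ) (n : ℕ) :
    ∫ y, f y ∂(annealed α n) = ∫ ω, (tr (clE c ω))^[n] f 0 ∂(env α) := by
  have key : ∀ g : ℤ → ℝ, (∀ x, 0 ≤ g x) → Integrable g (annealed α n) ∧
      ∫ y, g y ∂(annealed α n) = ∫ ω, (tr (clE c ω))^[n] g 0 ∂(env α) := by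
    intro g hg
    have h1 := lintegral_annealed_ofReal h0 hc α hae hg n
    have hm : AEStronglyMeasurable g (annealed α n) :=
      (measurable_of_countable g).aestronglyMeasurable
    refine ⟨(lintegral_ofReal_ne_top_iff_integrable hm (Eventually.of_forall hg)).1
      (by rw [h1]; exact ENNReal.ofReal_ne_top), ?_⟩
    rw [integral_eq_lintegral_of_nonneg_ae (Eventually.of_forall hg) hm, h1,
      ENNReal.toReal_ofReal (integral_nonneg fun ω => tr_iterate_nonneg (clE_mem h0 hc ω) hg n 0)]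
  obtain ⟨i1, e1⟩ := key (fun y => max (f y) 0) fun _ => le_max_right _ _
  obtain ⟨i2, e2⟩ := key (fun y => max (-f y) 0) fun _ => le_max_right _ _
  have e : f = fun y => max (f y) 0 - max (-f y) 0 := by
    funext y; rw [max_zero_sub_max_neg_zero_eq_self]
  rw [e, integral_sub i1 i2, e1, e2, ← integral_sub ((bm_tr h0 hc _ n 0).integrable _)
    ((bm_tr h0 hc _ n 0).integrable _)]
  simp only [tr_iterate_sub]

lemma mean_rho_lt_one (hae : ∀ᵐ w ∂α, w ∈ Icc c (1 - c)) {s : ℝ} (hs : 1 < s)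
    (hlog : ∫ w, Real.log (rho w) ∂α < 0) (hmom : ∫ w, rho w ^ s ∂α = 1) :
    ∫ w, rho w ∂α < 1 := by
  by_contra hle
  push Not at hle
  have hcl : ∀ᵐ w ∂α, rho (cl c w) = rho w := hae.mono fun w hw => by rw [cl_eq hw]
  have hpos : ∀ᵐ w ∂α, 0 < rho w := hcl.mono fun w hw => hw ▸ rho_cl_pos h0 hc w
  have i1 : Integrable rho α := ((bm_rho_cl h0 hc).integrable α).congr hcl
  have i2 : Integrable (fun w => rho w ^ s) α := by
    by_contra hn
    rw [integral_undef hn] at hmom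
    exact zero_ne_one hmom
  have i3 : Integrable (fun w => rho w ^ s - 1 - s * rho w + s) α :=
    ((i2.sub (integrable_const _)).sub (i1.const_mul _)).add (integrable_const _)
  have hnn : 0 ≤ᵐ[α] fun w => rho w ^ s - 1 - s * rho w + s := by
    filter_upwards [hpos] with w hw
    have := one_add_mul_self_le_rpow_one_add (s := rho w - 1) (by linarith) hs.le
    rw [add_sub_cancel] at this
    simp only [Pi.zero_apply]
    linarith
  have h3 : ∫ w, (rho w ^ s - 1 - s * rho w + s) ∂α = 0 := by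
    refine le_antisymm ?_ (integral_nonneg_of_ae hnn)
    rw [integral_four α i2 (integrable_const _) (i1.const_mul _) (integrable_const _), hmom,
      integral_const, integral_const, integral_const_mul, probReal_univ, one_smul, one_smul]
    nlinarith
  rw [integral_eq_zero_iff_of_nonneg_ae hnn i3] at h3
  have h4 : ∀ᵐ w ∂α, Real.log (rho w) = 0 := by
    filter_upwards [h3, hpos] with w hw hw'
    by_contra hne
    have h1 : rho w - 1 ≠ 0 := fun h => hne (by rw [show rho w = 1 by linarith, Real.log_one])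
    have := one_add_mul_self_lt_rpow_one_add (s := rho w - 1) (by linarith) h1 hs
    rw [add_sub_cancel] at this
    simp only [Pi.zero_apply] at hw
    linarith
  rw [integral_congr_ae h4, integral_zero] at hlog
  exact lt_irrefl _ hlog

end clamp

theorem main_of_lt_one (α : Measure ℝ) [IsProbabilityMeasure α]
    (hnd : ∀ a : ℝ, α ≠ Measure.dirac a)
    {c : ℝ} (h0 : 0 < c) (hc : c ≤ 1 - c) (hae : ∀ᵐ w ∂α, w ∈ Icc c (1 - c))
    (hR : ∫ w, rho w ∂α < 1) {n : ℕ} (hn : 1 ≤ n) :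
    speed α * n < ∫ x, (x : ℝ) ∂(annealed α n) := by
  have hcl : ∫ w, rho (cl c w) ∂α = ∫ w, rho w ∂α :=
    integral_congr_ae (hae.mono fun w hw => by simp only [cl_eq hw])
  have hR0 : 0 ≤ ∫ w, rho w ∂α := hcl ▸ integral_nonneg fun w => rho_cl_nonneg h0 hc w
  rw [speed, if_pos hR, integral_annealed h0 hc α hae]
  set R := ∫ w, rho w ∂α
  have h1 : 0 < 1 - R := by linarith
  have h2 : 0 < 1 + R := by linarith
  have := lt_mul_mean h0 hc α hae hnd (u := (1 + R) / (1 - R)) (by positivity)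
    (by rw [hcl]; field_simp; ring) hn
  rw [div_mul_eq_mul_div, lt_div_iff₀ h1] at this
  rw [div_mul_eq_mul_div, div_lt_iff₀ h2]
  linarith

theorem main (α : Measure ℝ) [IsProbabilityMeasure α] (hnd : ∀ a : ℝ, α ≠ Measure.dirac a)
    (c : ℝ) (h0 : 0 < c) (hell : α (Icc c (1 - c)) = 1) (s : ℝ) (hs : 1 < s)
    (hlog : ∫ w, Real.log (rho w) ∂α < 0) (hmom : ∫ w, rho w ^ s ∂α = 1)
    (n : ℕ) (hn : 1 ≤ n) : speed α * n < ∫ x, (x : ℝ) ∂(annealed α n) := by
  have hae : ∀ᵐ w ∂α, w ∈ Icc c (1 - c) := (mem_ae_iff_prob_eq_one measurableSet_Icc).2 hell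
  have hc : c ≤ 1 - c := by
    obtain ⟨w, hw⟩ := hae.exists
    exact hw.1.trans hw.2
  exact main_of_lt_one α hnd h0 hc hae (mean_rho_lt_one h0 hc α hae hs hlog hmom) hn

end Pool.Agent.MP_c9886c_pr

end
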